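import Pool.Agent.SGB.Stmts

/-!
# Squad SGB, row CLO
-/

set_option autoImplicit false

open Finset
open scoped Pointwise

namespace Pool.Agent.SGB.H83

universe u

theorem clo (hCRD : CRDStmt.{u}) : CLOStmt.{u} := by
  intro H _ _ S₁ S₂ Z₁ Z₂ h1 h2
  obtain ⟨ha, -, hc, hd, -⟩ := hCRD H
  have key : ∀ S A Y : AddSubgroup H, A ≤ S → Y ≤ S → cd A * cd Y ≤ cd (A ⊓ Y) * cd S := by
    intro S A Y hA hY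
    rw [← ha A Y]
    exact mul_le_mul_of_nonneg_left (hc _ _ (sup_le hA hY)) (zero_le_one.trans (hd _).1)
  have e1 := key S₁ Z₁ (S₁ ⊓ S₂) h1 inf_le_left
  have e1' : Z₁ ⊓ (S₁ ⊓ S₂) = Z₁ ⊓ S₂ := by
    rw [← inf_assoc, inf_eq_left.2 h1]
  rw [e1'] at e1
  have e2 := key S₂ Z₂ (Z₁ ⊓ S₂) h2 inf_le_right
  have e2' : Z₂ ⊓ (Z₁ ⊓ S₂) = Z₁ ⊓ Z₂ := by
    rw [inf_comm Z₁ S₂, ← inf_assoc, inf_eq_left.2 h2, inf_comm]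
  rw [e2'] at e2
  have p2 : 0 ≤ cd Z₂ := zero_le_one.trans (hd _).1
  have p3 : 0 ≤ cd S₁ := zero_le_one.trans (hd _).1
  calc cd (S₁ ⊓ S₂) * (cd Z₁ * cd Z₂) = cd Z₂ * (cd Z₁ * cd (S₁ ⊓ S₂)) := by ring
    _ ≤ cd Z₂ * (cd (Z₁ ⊓ S₂) * cd S₁) := mul_le_mul_of_nonneg_left e1 p2
    _ = cd S₁ * (cd Z₂ * cd (Z₁ ⊓ S₂)) := by ring
    _ ≤ cd S₁ * (cd (Z₁ ⊓ Z₂) * cd S₂) := mul_le_mul_of_nonneg_left e2 p3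
    _ = cd (Z₁ ⊓ Z₂) * (cd S₁ * cd S₂) := by ring

end Pool.Agent.SGB.H83
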